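import Mathlib
import Pool.Agent.Lib.MP_21cf63_al.Final

/-!
Good reductions of fusion categories are unique.

Let `C` be a fusion category over the algebraic closure of `ℚ` and let `p` be a prime. Any two good
reductions of `C` modulo `p` are equivalent as linear monoidal categories. There is no hypothesis
relating `p` to the global dimension of `C`.

The definitions `Zbar`, `SemisimpleRigid`, `IsScalarExtension`, `IsGoodReduction` are in
`Pool/Agent/Lib/MP_21cf63_al/Defs.lean`.

Sketch of the proof. Let `D₁`, `D₂` be the two integral forms, with simple objects `X i`, `X' i`,
identified in the common generic fibre by isomorphisms `φ i`. By linear programming the `φ i` can be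
rescaled so that all matrix coefficients of the products `φ i ⊗ φ j` are integral and so that the
triples `(i, j, l)` with a unit coefficient admit no nonzero order function. Reducing the integral
coefficients gives a multiplicative family of subspaces of the multiplicity spaces of the special
fibre. A theorem on such families (`SFam.MultFam.all_units`), whose main part is the statement that
no nonzero object carries an action, without invariant subobjects, of a family of objects without
unit constituent (`SFam.thmA`, proved with Perron-Frobenius dimensions), shows that the coefficients
for `(i, i*, 1)` are units. By duality the inverses of the products `φ i ⊗ φ j` are integral too, so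
`D₁` and `D₂` are equivalent over `Zbar p`, and so are their special fibres.
-/

open CategoryTheory MonoidalCategory

namespace Pool.Agent.Results.MP_21cf63_al.GoodReductionUnique

open Pool.Agent.Lib.MP_21cf63_al

universe u v w

/-- For every prime `p`, a category `C` (for instance a fusion category over the algebraic closure
of `ℚ`) has at most one good reduction modulo `p` up to tensor equivalence. -/
theorem result (p : ℕ) [Fact p.Prime]
    (k : Type w) [Field k] [Algebra (Zbar p) k] (hk : Function.Surjective (algebraMap (Zbar p) k))
    [Algebra (AlgebraicClosure ℚ) (PadicAlgCl p)]
    (C : Type u) [Category.{v} C] [Preadditive C] [Linear (AlgebraicClosure ℚ) C]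
    [MonoidalCategory C] [MonoidalPreadditive C] [MonoidalLinear (AlgebraicClosure ℚ) C]
    (E₁ : Type u) [Category.{v} E₁] [Preadditive E₁] [Linear k E₁]
    [MonoidalCategory E₁] [MonoidalPreadditive E₁] [MonoidalLinear k E₁]
    (E₂ : Type u) [Category.{v} E₂] [Preadditive E₂] [Linear k E₂]
    [MonoidalCategory E₂] [MonoidalPreadditive E₂] [MonoidalLinear k E₂]
    (h₁ : IsGoodReduction p k C E₁) (h₂ : IsGoodReduction p k C E₂) :
    ∃ e : E₁ ≌ E₂, Nonempty e.functor.Monoidal ∧ e.functor.Additive ∧
      ∀ (r : k) (X Y : E₁) (f : X ⟶ Y), e.functor.map (r • f) = r • e.functor.map f :=
  good_reduction_unique p k hk C E₁ E₂ h₁ h₂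

end Pool.Agent.Results.MP_21cf63_al.GoodReductionUnique
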